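import Pool.Agent.Lib_MP_9e7d46_co.PairThm
import Pool.Agent.Lib_MP_9e7d46_co.Lift
import Pool.Agent.Lib_MP_9e7d46_co.Final

/-!
Reduction of a graph to a matching of its odd vertices by splitting off.
-/

set_option autoImplicit false
set_option linter.unusedSectionVars false

namespace Pool.Agent.LK9e

open Classical Pool.Agent.DJ9e

universe u v

variable {V : Type u} {A : Type v} [Fintype A]

theorem two_arcs (s t : A → V) (v : V) (h : 2 ≤ dd s t {v}) :
    ∃ a b, b ≠ a ∧ Cr s t {v} a ∧ Cr s t {v} b := by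
  rw [dd_eq_ncard] at h
  have h' : 1 < {e : A | ¬ (s e ∈ ({v} : Set V) ↔ t e ∈ ({v} : Set V))}.ncard := h
  obtain ⟨a, ha, b, hb, hab⟩ := (Set.one_lt_ncard (Set.toFinite _)).1 h'
  exact ⟨a, b, Ne.symm hab, ha, hb⟩

theorem jn_of_cr (s t : A → V) (v : V) (a : A) (h : Cr s t {v} a) :
    ∃ u, u ≠ v ∧ Jn s t a v u := by
  unfold Cr at h
  simp only [Set.mem_singleton_iff] at h
  by_cases h1 : s a = v
  · exact ⟨t a, fun h2 => h ⟨fun _ => h2, fun _ => h1⟩, Or.inl ⟨h1, rfl⟩⟩
  · have h2 : t a = v := by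
      by_contra h2
      exact h ⟨fun h3 => absurd h3 h1, fun h3 => absurd h3 h2⟩
    exact ⟨s a, h1, Or.inr ⟨rfl, h2⟩⟩

theorem ne_of_cr (s t : A → V) (v : V) (a : A) (h : Cr s t {v} a) : s a ≠ t a := by
  intro h1
  unfold Cr at h
  rw [h1] at h
  exact h Iff.rfl

/-- every graph can be reduced to a matching by splitting off: the cuts do not increase and
keep their parity. -/
theorem tjoin (n : ℕ) : ∀ (s t : A → V), nl s t = n →
    ∃ s' t' : A → V, (∀ U : Set V, ∃ j : ℕ, dd s t U = dd s' t' U + 2 * j) ∧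
      ∀ v, dd s' t' {v} ≤ 1 := by
  induction n using Nat.strong_induction_on with
  | _ n IH =>
  intro s t hn
  by_cases h : ∀ v, dd s t {v} ≤ 1
  · exact ⟨s, t, fun U => ⟨0, rfl⟩, h⟩
  · push Not at h
    obtain ⟨v, hv⟩ := h
    obtain ⟨a, b, hab, ha, hb⟩ := two_arcs s t v (by omega)
    obtain ⟨u, -, hu⟩ := jn_of_cr s t v a ha
    obtain ⟨w, -, hw⟩ := jn_of_cr s t v b hb
    have hlt := nl_split s t a b v u w hab (ne_of_cr s t v b hb) (ne_of_cr s t v a ha)
    obtain ⟨s', t', h1, h2⟩ := IH _ (by rw [← hn]; exact hlt) _ _ rfl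
    refine ⟨s', t', fun U => ?_, h2⟩
    obtain ⟨j, hj⟩ := lift_dd s t v a b u w hab hu hw U
    obtain ⟨i, hi⟩ := h1 U
    exact ⟨i + j, by omega⟩

/-- a cut is at most the sum of the degrees on one side. -/
theorem dd_le_deg [Fintype V] (s t : A → V) (U : Set V) :
    dd s t U ≤ ∑ v, if v ∈ U then dd s t {v} else 0 := by
  have h : ∀ v, (if v ∈ U then dd s t {v} else 0) =
      ∑ a, if v ∈ U then (if (s a ∈ ({v} : Set V) ↔ t a ∈ ({v} : Set V)) then 0 else 1) else 0 := by
    intro v
    by_cases hv : v ∈ U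
    · simp only [if_pos hv]; rfl
    · simp [hv]
  simp only [h]
  rw [Finset.sum_comm]
  unfold dd
  refine Finset.sum_le_sum fun a _ => ?_
  by_cases h1 : (s a ∈ U ↔ t a ∈ U)
  · rw [if_pos h1]; exact Nat.zero_le _
  · rw [if_neg h1]
    by_cases h2 : s a ∈ U
    · have h3 : t a ∉ U := fun h3 => h1 ⟨fun _ => h3, fun _ => h2⟩
      have h4 : s a ≠ t a := fun h4 => h3 (h4 ▸ h2)
      refine le_trans ?_ (Finset.single_le_sum (f := fun v => if v ∈ U then
        (if (s a ∈ ({v} : Set V) ↔ t a ∈ ({v} : Set V)) then 0 else 1) else 0)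
        (fun i _ => Nat.zero_le _) (Finset.mem_univ (s a)))
      simp only [if_pos h2, Set.mem_singleton_iff, true_iff]
      rw [if_neg (fun h => h4 h.symm)]
    · have h3 : t a ∈ U := by
        by_contra h3
        exact h1 ⟨fun h => absurd h h2, fun h => absurd h h3⟩
      have h4 : s a ≠ t a := fun h4 => h2 (h4 ▸ h3)
      refine le_trans ?_ (Finset.single_le_sum (f := fun v => if v ∈ U then
        (if (s a ∈ ({v} : Set V) ↔ t a ∈ ({v} : Set V)) then 0 else 1) else 0)
        (fun i _ => Nat.zero_le _) (Finset.mem_univ (t a)))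
      simp only [if_pos h3, Set.mem_singleton_iff, iff_true]
      rw [if_neg h4]

/-- a cut has the parity of the sum of the degrees on one side. -/
theorem dd_parity [Fintype V] (s t : A → V) (U : Set V) :
    ∃ j : ℕ, (∑ v, if v ∈ U then dd s t {v} else 0) = dd s t U + 2 * j := by
  have h : ∀ v, (if v ∈ U then dd s t {v} else 0) =
      ∑ a, if v ∈ U then (if (s a ∈ ({v} : Set V) ↔ t a ∈ ({v} : Set V)) then 0 else 1) else 0 := by
    intro v
    by_cases hv : v ∈ U
    · simp only [if_pos hv]; rfl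
    · simp [hv]
  simp only [h]
  rw [Finset.sum_comm]
  have key : ∀ a, ∃ j : ℕ, (∑ v, if v ∈ U then
      (if (s a ∈ ({v} : Set V) ↔ t a ∈ ({v} : Set V)) then 0 else 1) else 0) =
      (if (s a ∈ U ↔ t a ∈ U) then 0 else 1) + 2 * j := by
    intro a
    by_cases h4 : s a = t a
    · refine ⟨0, ?_⟩
      rw [h4]
      simp
    · have h5 : (∑ v, if v ∈ U then
          (if (s a ∈ ({v} : Set V) ↔ t a ∈ ({v} : Set V)) then 0 else 1) else 0) =
          (if s a ∈ U then 1 else 0) + (if t a ∈ U then 1 else 0) := by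
        have h6 : ∀ v, (if v ∈ U then
          (if (s a ∈ ({v} : Set V) ↔ t a ∈ ({v} : Set V)) then 0 else 1) else 0) =
          (if v = s a then (if s a ∈ U then 1 else 0) else 0) +
            (if v = t a then (if t a ∈ U then 1 else 0) else 0) := by
          intro v
          simp only [Set.mem_singleton_iff]
          by_cases h7 : v = s a
          · subst h7
            simp [h4, Ne.symm h4]
          · by_cases h8 : v = t a
            · subst h8
              simp [h4, Ne.symm h4]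
            · simp [h7, h8, Ne.symm h7, Ne.symm h8]
        simp only [h6]
        rw [Finset.sum_add_distrib]
        simp
      rw [h5]
      by_cases h1 : s a ∈ U <;> by_cases h2 : t a ∈ U
      · exact ⟨1, by simp [h1, h2]⟩
      · exact ⟨0, by simp [h1, h2]⟩
      · exact ⟨0, by simp [h1, h2]⟩
      · exact ⟨0, by simp [h1, h2]⟩
  choose j hj using key
  refine ⟨∑ a, j a, ?_⟩
  unfold dd
  rw [Finset.mul_sum, ← Finset.sum_add_distrib]
  exact Finset.sum_congr rfl fun a _ => hj a

end Pool.Agent.LK9e
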