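import Pool.Agent.Lib_MP_9e7d46_lk.Main
import Pool.Agent.Lib_MP_9e7d46_co.Final

/-!
Two disjoint `k`-dijoins when `k` is large compared with the number of vertices outside a
highly connected class.
-/

set_option autoImplicit false
set_option linter.unusedSectionVars false

namespace Pool.Agent.LK9e

open Classical Pool.Agent.DJ9e

universe u v

variable {V : Type u} {A : Type v} [Fintype V] [Fintype A]

theorem exists_orient' (s t : A → V) (k : ℕ) (hk : 1 ≤ k) (N : Set V)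
    (h : ∀ U : Set V, U.Nonempty → Uᶜ.Nonempty → Sh s t U → 2 * k ≤ dd s t U)
    (hN : ∀ U : Set V, NSep N U → 2 * k ≤ dd s t U)
    (hT : (Nᶜ.ncard + 1) * ({v : V | v ∉ N ∧ Odd (dd s t {v})}.ncard - 1) < 4 * k) :
    ∃ O : A → Bool, ∀ U : Set V, U.Nonempty → Uᶜ.Nonempty → Sh s t U → k ≤ inn s t O U := by
  rcases Nat.lt_or_ge k 2 with hk2 | hk2
  · refine exists_good s t k hk h ?_
    intro X h1 h2
    rcases Nat.lt_or_ge 3 (dd s t X) with h3 | h3
    · right; omega
    · left; exact h3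
  · rcases N.eq_empty_or_nonempty with hN0 | ⟨n0, hn0⟩
    · rcases isEmpty_or_nonempty V with hV | ⟨⟨v0⟩⟩
      · exact ⟨fun _ => true, fun U hU => by obtain ⟨x, -⟩ := hU; exact hV.elim x⟩
      · refine exists_orient s t k hk2 {v0} v0 rfl h ?_ (lt_of_le_of_lt ?_ hT)
        · rintro U - - ⟨⟨x, hx, hx1⟩, ⟨y, hy, hy1⟩⟩
          rw [Set.mem_singleton_iff] at hx hy
          subst hx
          subst hy
          exact absurd hx1 hy1
        · refine Nat.mul_le_mul ?_ ?_
          · have h1 : ({v0}ᶜ : Set V) ⊆ Nᶜ := by rw [hN0]; simp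
            have := Set.ncard_le_ncard h1 (Set.toFinite _)
            omega
          · have h1 : {v : V | v ∉ ({v0} : Set V) ∧ Odd (dd s t {v})} ⊆
                {v : V | v ∉ N ∧ Odd (dd s t {v})} := by
              rintro v ⟨-, hv⟩
              exact ⟨by rw [hN0]; simp, hv⟩
            have := Set.ncard_le_ncard h1 (Set.toFinite _)
            omega
    · exact exists_orient s t k hk2 N n0 hn0 h (fun U _ _ hs => hN U hs) hT

/-- Two disjoint `k`-dijoins. -/
theorem two_dijoins_large (s t : A → V) (k : ℕ) (N : Set V)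
    (h : ∀ U : Set V, U.Nonempty → U ≠ Set.univ → (∀ e, ¬ (t e ∈ U ∧ s e ∉ U)) →
      2 * k ≤ {e : A | s e ∈ U ∧ t e ∉ U}.ncard)
    (hN : ∀ U : Set V, NSep N U → 2 * k ≤ dd s t U)
    (hT : (Nᶜ.ncard + 1) * ({v : V | v ∉ N ∧ Odd (dd s t {v})}.ncard - 1) < 4 * k) :
    ∃ J₁ J₂ : Finset A, Disjoint J₁ J₂ ∧
      ∀ U : Set V, U.Nonempty → U ≠ Set.univ → (∀ e, ¬ (t e ∈ U ∧ s e ∉ U)) →
        k ≤ {e : A | e ∈ J₁ ∧ s e ∈ U ∧ t e ∉ U}.ncard ∧
        k ≤ {e : A | e ∈ J₂ ∧ s e ∈ U ∧ t e ∉ U}.ncard := by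
  rcases Nat.eq_zero_or_pos k with hk | hk
  · subst hk
    exact ⟨∅, ∅, by simp, fun U _ _ _ => ⟨Nat.zero_le _, Nat.zero_le _⟩⟩
  have h' : ∀ U : Set V, U.Nonempty → Uᶜ.Nonempty → Sh s t U → 2 * k ≤ dd s t U := by
    intro U hU hUc hS
    rcases hS with hS | hS
    · have hcl : ∀ e, ¬ (t e ∈ U ∧ s e ∉ U) := fun e he => he.2 (hS e he.1)
      rw [dd_closed s t U hcl]
      exact h U hU (Set.nonempty_compl.1 hUc) hcl
    · have hcl : ∀ e, ¬ (t e ∈ Uᶜ ∧ s e ∉ Uᶜ) := by
        intro e he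
        exact he.1 (hS e (by simpa using he.2))
      rw [← dd_compl, dd_closed s t Uᶜ hcl]
      refine h Uᶜ hUc ?_ hcl
      exact Set.nonempty_compl.1 (by rwa [compl_compl])
  obtain ⟨O, hO⟩ := exists_orient' s t k hk N h' hN hT
  refine ⟨Finset.univ.filter fun e => O e = true, Finset.univ.filter fun e => O e = false,
    ?_, ?_⟩
  · rw [Finset.disjoint_filter]
    intro e _ h1 h2
    rw [h1] at h2
    exact absurd h2 (by simp)
  · intro U hU hne hcl
    have hUc : Uᶜ.Nonempty := Set.nonempty_compl.2 hne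
    have hS : Sh s t U := Or.inl fun e he => by
      by_contra hc
      exact hcl e ⟨he, hc⟩
    refine ⟨?_, ?_⟩
    · rw [← inn_closed_true s t O U hcl]
      exact hO Uᶜ hUc (by rwa [compl_compl]) ((Sh_compl s t U).2 hS)
    · rw [← inn_closed_false s t O U hcl]
      exact hO U hU hUc hS

end Pool.Agent.LK9e
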