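import Pool.Agent.Lib_MP_9e7d46_co.Hakimi

/-!
Modular functions which are nonnegative on a crossing family: they are nonnegative on every set
closed for the induced preorder, and they are divergences of transports along the preorder.
-/

set_option autoImplicit false
set_option linter.unusedSectionVars false

namespace Pool.Agent.LK9e

open Classical Pool.Agent.DJ9e

universe u

variable {V : Type u} [Fintype V]

theorem xs_mod (m : V → ℤ) (A B : Set V) :
    xs m (A ∩ B) + xs m (A ∪ B) = xs m A + xs m B := by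
  unfold xs
  rw [← Finset.sum_add_distrib, ← Finset.sum_add_distrib]
  refine Finset.sum_congr rfl fun u _ => ?_
  by_cases h1 : u ∈ A <;> by_cases h2 : u ∈ B <;> simp [h1, h2]

theorem xs_empty (m : V → ℤ) : xs m ∅ = 0 := by
  unfold xs; simp

theorem xs_split (m : V → ℤ) (A X : Set V) (h : A ⊆ X) :
    xs m X = xs m A + xs m (X \ A) := by
  have h1 := xs_mod m A (X \ A)
  have h2 : A ∩ (X \ A) = ∅ := by ext x; simp
  have h3 : A ∪ (X \ A) = X := Set.union_diff_cancel h
  rw [h2, h3, xs_empty, zero_add] at h1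
  exact h1

theorem xs_neg (m : V → ℤ) (A : Set V) : xs (fun v => - m v) A = - xs m A := by
  unfold xs
  rw [← Finset.sum_neg_distrib]
  refine Finset.sum_congr rfl fun u _ => ?_
  by_cases h1 : u ∈ A <;> simp [h1]

/-- a modular function which is nonnegative on a family closed under unions of intersecting
members is nonnegative on all unions of members. -/
theorem union_nonneg (G : Set V → Prop)
    (hG : ∀ A B, G A → G B → (A ∩ B).Nonempty → G (A ∪ B))
    (m : V → ℤ) (hm : ∀ A, G A → 0 ≤ xs m A) :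
    ∀ (n : ℕ) (X : Set V), X.ncard = n → (∀ x ∈ X, ∃ A, G A ∧ x ∈ A ∧ A ⊆ X) →
      0 ≤ xs m X := by
  intro n
  induction n using Nat.strong_induction_on with
  | _ n IH =>
  intro X hn hX
  rcases X.eq_empty_or_nonempty with h0 | ⟨x, hx⟩
  · rw [h0, xs_empty]
  obtain ⟨A0, hA0, hxA0, hA0X⟩ := hX x hx
  obtain ⟨A, hA, hmax⟩ := Finset.exists_max_image
    (Finset.univ.filter fun A : Set V => G A ∧ A.Nonempty ∧ A ⊆ X) (fun A => A.ncard)
    ⟨A0, by simp only [Finset.mem_filter, Finset.mem_univ, true_and]; exact ⟨hA0, ⟨x, hxA0⟩, hA0X⟩⟩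
  simp only [Finset.mem_filter, Finset.mem_univ, true_and] at hA hmax
  obtain ⟨hGA, hAne, hAX⟩ := hA
  have hlt : (X \ A).ncard < n := by
    rw [← hn]
    refine Set.ncard_lt_ncard ?_ (Set.toFinite X)
    refine ⟨Set.diff_subset, fun h => ?_⟩
    obtain ⟨z, hz⟩ := hAne
    exact (h (hAX hz)).2 hz
  have h1 := IH _ hlt (X \ A) rfl (by
    intro y hy
    obtain ⟨B, hB, hyB, hBX⟩ := hX y hy.1
    refine ⟨B, hB, hyB, fun z hz => ⟨hBX hz, fun hzA => ?_⟩⟩
    have h2 := hmax (A ∪ B) ⟨hG A B hGA hB ⟨z, hzA, hz⟩, hAne.mono Set.subset_union_left,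
      Set.union_subset hAX hBX⟩
    have h3 : A.ncard < (A ∪ B).ncard := by
      refine Set.ncard_lt_ncard ⟨Set.subset_union_left, fun h => ?_⟩ (Set.toFinite _)
      exact hy.2 (h (Or.inr hyB))
    omega)
  have h4 := hm A hGA
  rw [xs_split m A X hAX]
  linarith

/-- `F` is a crossing family. -/
def Crossing (F : Set V → Prop) : Prop :=
  ∀ U W, F U → F W → (U ∩ W).Nonempty → U ∪ W ≠ Set.univ → F (U ∩ W) ∧ F (U ∪ W)

/-- intersections of members of `F` with a common point. -/
def IntF (F : Set V → Prop) (Z : Set V) : Prop :=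
  Z.Nonempty ∧ ∃ S : Set (Set V), (∀ U ∈ S, F U) ∧ Z = ⋂₀ S

theorem intF_nonneg (F : Set V → Prop) (hF : Crossing F) (m : V → ℤ)
    (h0 : xs m Set.univ = 0) (hm : ∀ U, F U → 0 ≤ xs m U) (Z : Set V) (hZ : IntF F Z) :
    0 ≤ xs m Z := by
  obtain ⟨⟨z, hz⟩, S, hS, hZS⟩ := hZ
  have h1 := union_nonneg (fun A => F Aᶜ ∧ z ∉ A) (by
      rintro A B ⟨hA, hzA⟩ ⟨hB, hzB⟩ ⟨w, hwA, hwB⟩
      refine ⟨?_, fun h => h.elim hzA hzB⟩
      rw [Set.compl_union]
      refine (hF _ _ hA hB ⟨z, hzA, hzB⟩ ?_).1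
      intro h
      have : w ∈ Aᶜ ∪ Bᶜ := by rw [h]; trivial
      rcases this with h | h
      · exact h hwA
      · exact h hwB) (fun v => - m v) (by
      rintro A ⟨hA, -⟩
      rw [xs_neg]
      have h2 := hm _ hA
      have h3 := xs_add_compl m A
      rw [h0] at h3
      linarith) _ Zᶜ rfl (by
      intro x hx
      rw [hZS] at hx
      simp only [Set.mem_compl_iff, Set.mem_sInter, not_forall] at hx
      obtain ⟨U, hU, hxU⟩ := hx
      refine ⟨Uᶜ, ⟨by rw [compl_compl]; exact hS U hU, ?_⟩, hxU, ?_⟩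
      · intro h
        rw [hZS] at hz
        exact h (hz U hU)
      · intro w hw hwZ
        rw [hZS] at hwZ
        exact hw (hwZ U hU))
  rw [xs_neg] at h1
  have h3 := xs_add_compl m Z
  rw [h0] at h3
  linarith

theorem intF_union (F : Set V → Prop) (hF : Crossing F) (Z Z' : Set V) (hZ : IntF F Z)
    (hZ' : IntF F Z') (h : (Z ∩ Z').Nonempty) : IntF F (Z ∪ Z') := by
  obtain ⟨hne, S, hS, hZS⟩ := hZ
  obtain ⟨hne', S', hS', hZS'⟩ := hZ'
  obtain ⟨x, hx, hx'⟩ := h
  refine ⟨hne.mono Set.subset_union_left,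
    {Y | ∃ U ∈ S, ∃ W ∈ S', Y = U ∪ W ∧ U ∪ W ≠ Set.univ}, ?_, ?_⟩
  · rintro Y ⟨U, hU, W, hW, rfl, hne⟩
    refine (hF _ _ (hS U hU) (hS' W hW) ⟨x, ?_, ?_⟩ hne).2
    · rw [hZS] at hx; exact hx U hU
    · rw [hZS'] at hx'; exact hx' W hW
  · ext y
    constructor
    · rintro hy Y ⟨U, hU, W, hW, rfl, -⟩
      rcases hy with hy | hy
      · left; rw [hZS] at hy; exact hy U hU
      · right; rw [hZS'] at hy; exact hy W hW
    · intro hy
      by_contra hc
      rw [Set.mem_union, not_or] at hc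
      obtain ⟨h1, h2⟩ := hc
      rw [hZS] at h1
      rw [hZS'] at h2
      simp only [Set.mem_sInter, not_forall] at h1 h2
      obtain ⟨U, hU, h1⟩ := h1
      obtain ⟨W, hW, h2⟩ := h2
      have hn : y ∉ U ∪ W := fun h => h.elim h1 h2
      exact hn (hy (U ∪ W) ⟨U, hU, W, hW, rfl, fun h => hn (by rw [h]; trivial)⟩)

/-- nonnegativity on the closed sets of a crossing family. -/
theorem closed_nonneg (F : Set V → Prop) (hF : Crossing F) (m : V → ℤ)
    (h0 : xs m Set.univ = 0) (hm : ∀ U, F U → 0 ≤ xs m U) (X : Set V)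
    (hX : ∀ v ∈ X, ∀ u, u ∉ X → ∃ U, F U ∧ v ∈ U ∧ u ∉ U) : 0 ≤ xs m X := by
  refine union_nonneg (IntF F) (fun A B hA hB h => intF_union F hF A B hA hB h) m
    (fun A hA => intF_nonneg F hF m h0 hm A hA) _ X rfl ?_
  intro v hv
  refine ⟨⋂₀ {U | F U ∧ v ∈ U}, ⟨⟨v, fun U hU => hU.2⟩, _, fun U hU => hU.1, rfl⟩,
    fun U hU => hU.2, ?_⟩
  intro y hy
  by_contra hyX
  obtain ⟨U, hU, hvU, hyU⟩ := hX v hv y hyX
  exact hyU (hy U ⟨hU, hvU⟩)

/-- the preorder of a family. -/
def Le (F : Set V → Prop) (u v : V) : Prop := ∀ U, F U → v ∈ U → u ∈ U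

theorem card_sig (f : V → ℕ) (R : Set V) :
    (Finset.univ.filter fun x : (Σ v : V, Fin (f v)) => x.1 ∈ R).card =
      ∑ v, if v ∈ R then f v else 0 := by
  rw [Finset.card_filter, Fintype.sum_sigma]
  refine Finset.sum_congr rfl fun v _ => ?_
  by_cases h : v ∈ R <;> simp [h]

theorem toNat_sub (m : V → ℤ) (R : Set V) :
    ((∑ v, if v ∈ R then (m v).toNat else 0 : ℕ) : ℤ) -
      ((∑ v, if v ∈ R then (- m v).toNat else 0 : ℕ) : ℤ) = xs m R := by
  unfold xs
  push_cast
  rw [← Finset.sum_sub_distrib]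
  refine Finset.sum_congr rfl fun v _ => ?_
  by_cases h : v ∈ R
  · simp only [if_pos h]
    omega
  · simp [h]

/-- Root cone lemma: a modular function which is nonnegative on a crossing family is the
divergence of a transport which enters no member of the family. -/
theorem root_cone (F : Set V → Prop) (hF : Crossing F) (m : V → ℤ)
    (h0 : xs m Set.univ = 0) (hm : ∀ U, F U → 0 ≤ xs m U) :
    ∃ (E : Type u) (_ : Fintype E) (a b : E → V), (∀ e, Le F (a e) (b e)) ∧
      ∀ U : Set V, xs m U =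
        ∑ e, ((if a e ∈ U then (1 : ℤ) else 0) - (if b e ∈ U then 1 else 0)) := by
  have hall : ∃ f : (Σ v : V, Fin (m v).toNat) → (Σ v : V, Fin (- m v).toNat),
      Function.Injective f ∧ ∀ x, Le F x.1 (f x).1 := by
    refine (Fintype.all_card_le_filter_rel_iff_exists_injective
      (fun (x : Σ v : V, Fin (m v).toNat) (y : Σ v : V, Fin (- m v).toNat) =>
        Le F x.1 y.1)).1 ?_
    intro A
    obtain ⟨R, hR⟩ : ∃ R : Set V, ∀ v, v ∈ R ↔ ∃ x ∈ A, Le F x.1 v :=
      ⟨{v | ∃ x ∈ A, Le F x.1 v}, fun _ => Iff.rfl⟩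
    have hc := closed_nonneg F hF m h0 hm Rᶜ (by
      intro v hv u hu
      simp only [Set.mem_compl_iff, not_not] at hu
      obtain ⟨x, hx, hxu⟩ := (hR u).1 hu
      have hv' : ¬ Le F x.1 v := fun h => hv ((hR v).2 ⟨x, hx, h⟩)
      unfold Le at hv'
      push Not at hv'
      obtain ⟨U, hU, hvU, hxU⟩ := hv'
      exact ⟨U, hU, hvU, fun h => hxU (hxu U hU h)⟩)
    have h3 := xs_add_compl m R
    rw [h0] at h3
    have h4 := toNat_sub m R
    have h5 : A.card ≤ ∑ v, if v ∈ R then (m v).toNat else 0 := by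
      rw [← card_sig (fun v => (m v).toNat) R]
      refine Finset.card_le_card ?_
      intro x hx
      rw [Finset.mem_filter]
      exact ⟨Finset.mem_univ _, (hR _).2 ⟨x, hx, fun U _ h => h⟩⟩
    have h6 : (∑ v, if v ∈ R then (- m v).toNat else 0) =
        (Finset.univ.filter fun y : (Σ v : V, Fin (- m v).toNat) =>
          ∃ x ∈ A, Le F x.1 y.1).card := by
      rw [← card_sig (fun v => (- m v).toNat) R]
      congr 1
      ext y
      simp only [Finset.mem_filter, Finset.mem_univ, true_and]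
      exact hR y.1
    rw [← h6]
    omega
  obtain ⟨f, hf, hle⟩ := hall
  have hcard : Fintype.card (Σ v : V, Fin (m v).toNat) =
      Fintype.card (Σ v : V, Fin (- m v).toNat) := by
    have h4 := toNat_sub m Set.univ
    rw [h0] at h4
    have h5 := card_sig (fun v => (m v).toNat) Set.univ
    have h6 := card_sig (fun v => (- m v).toNat) Set.univ
    simp only [Set.mem_univ, Finset.filter_true, if_true] at h4 h5 h6
    rw [← Finset.card_univ, ← Finset.card_univ, h5, h6]
    omega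
  have hbij : Function.Bijective f := (Fintype.bijective_iff_injective_and_card f).2 ⟨hf, hcard⟩
  refine ⟨(Σ v : V, Fin (m v).toNat), inferInstance, fun x => x.1, fun x => (f x).1, hle, ?_⟩
  intro U
  rw [Finset.sum_sub_distrib]
  have h7 : ∑ x : (Σ v : V, Fin (m v).toNat), (if (f x).1 ∈ U then (1 : ℤ) else 0) =
      ∑ y : (Σ v : V, Fin (- m v).toNat), (if y.1 ∈ U then (1 : ℤ) else 0) :=
    Fintype.sum_bijective f hbij _ _ (fun _ => rfl)
  rw [h7]
  have h8 : ∀ g : V → ℕ, (∑ y : (Σ v : V, Fin (g v)), (if y.1 ∈ U then (1 : ℤ) else 0)) =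
      ((∑ v, if v ∈ U then g v else 0 : ℕ) : ℤ) := by
    intro g
    rw [← card_sig g U, Finset.card_filter]
    push_cast
    rfl
  rw [h8 (fun v => (m v).toNat), h8 (fun v => (- m v).toNat)]
  exact (toNat_sub m U).symm

end Pool.Agent.LK9e
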