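import Pool.Agent.Lib_MP_9e7d46_lk.PSh
import Pool.Agent.Lib_MP_9e7d46_co.Contract

/-!
Two disjoint `k`-dijoins when all but few vertices lie in one highly connected class.
-/

set_option autoImplicit false
set_option linter.unusedSectionVars false

namespace Pool.Agent.LK9e

open Classical Pool.Agent.DJ9e

universe u v

variable {V : Type u} {A : Type v} [Fintype V] [Fintype A]

/-- the pairs of the involution `μ`, each pair once. -/
abbrev MT (μ : V → V) : Type u := {u : V // Fintype.equivFin V u < Fintype.equivFin V (μ u)}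

def ms (μ : V → V) (u : MT μ) : V := u.1

def mt (μ : V → V) (u : MT μ) : V := μ u.1

theorem dd_pairs (μ : V → V) (hi : ∀ u, μ (μ u) = u) (U : Set V) :
    dd (ms μ) (mt μ) U = dM μ U := by
  let e : V ≃ V := ⟨μ, μ, hi, hi⟩
  let L : V → Prop := fun u => Fintype.equivFin V u < Fintype.equivFin V (μ u)
  have h1 : dM μ U = (∑ u, if L u then (if (u ∈ U ∧ μ u ∉ U) then 1 else 0) else 0) +
      ∑ u, if L (μ u) then (if (u ∈ U ∧ μ u ∉ U) then 1 else 0) else 0 := by
    unfold dM
    rw [← Finset.sum_add_distrib]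
    refine Finset.sum_congr rfl fun u _ => ?_
    by_cases h : μ u = u
    · have h2 : ¬ (u ∈ U ∧ μ u ∉ U) := by rw [h]; exact fun h => h.2 h.1
      simp [h2]
    · have hne : Fintype.equivFin V u ≠ Fintype.equivFin V (μ u) := fun h' =>
        h ((Fintype.equivFin V).injective h').symm
      have hL : L (μ u) ↔ Fintype.equivFin V (μ u) < Fintype.equivFin V u := by
        simp only [L, hi]
      rcases lt_or_gt_of_ne hne with h3 | h3
      · have h4 : ¬ L (μ u) := by rw [hL]; exact not_lt.2 h3.le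
        have h5 : L u := h3
        simp [h4, h5]
      · have h4 : L (μ u) := by rw [hL]; exact h3
        have h5 : ¬ L u := not_lt.2 h3.le
        simp [h4, h5]
  have h2 : (∑ u, if L (μ u) then (if (u ∈ U ∧ μ u ∉ U) then 1 else 0) else 0) =
      ∑ u, if L u then (if (μ u ∈ U ∧ u ∉ U) then 1 else 0) else 0 := by
    rw [← Equiv.sum_comp e]
    refine Finset.sum_congr rfl fun u _ => ?_
    have he : e u = μ u := rfl
    rw [he, hi]
  rw [h1, h2, ← Finset.sum_add_distrib]
  have h3 : dd (ms μ) (mt μ) U = ∑ u ∈ Finset.univ.filter L,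
      (if (u ∈ U ↔ μ u ∈ U) then 0 else 1) := by
    rw [Finset.sum_subtype (Finset.univ.filter L) (p := L) (fun x => by simp)]
    rfl
  rw [h3, Finset.sum_filter]
  refine Finset.sum_congr rfl fun u _ => ?_
  by_cases h4 : L u
  · rw [if_pos h4, if_pos h4, if_pos h4]
    by_cases h5 : u ∈ U <;> by_cases h6 : μ u ∈ U <;> simp [h5, h6]
  · rw [if_neg h4, if_neg h4, if_neg h4]
    rfl

theorem inn_le_dd (s t : A → V) (O : A → Bool) (U : Set V) :
    |(inn s t O Uᶜ : ℤ) - inn s t O U| ≤ dd s t U := by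
  have h := inn_add_compl s t O U
  rw [abs_le]
  constructor <;> omega

theorem dM_single (μ : V → V) (v : V) : dM μ {v} = if μ v = v then 0 else 1 := by
  unfold dM
  rw [Finset.sum_eq_single v]
  · by_cases h : μ v = v <;> simp [h]
  · intro u _ hu
    simp [hu]
  · intro h
    exact absurd (Finset.mem_univ v) h

theorem parity_congr {B : Type*} [Fintype B] (s t : A → V) (a b : B → V)
    (h : ∀ v, ∃ j : ℤ, (dd a b {v} : ℤ) = dd s t {v} + 2 * j) (U : Set V) :
    ∃ j : ℤ, (dd a b U : ℤ) = dd s t U + 2 * j := by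
  obtain ⟨j1, h1⟩ := dd_parity s t U
  obtain ⟨j2, h2⟩ := dd_parity a b U
  choose j hj using h
  have h3 : (∑ v, if v ∈ U then (dd a b {v} : ℤ) else 0) =
      (∑ v, if v ∈ U then (dd s t {v} : ℤ) else 0) + 2 * ∑ v, if v ∈ U then j v else 0 := by
    rw [Finset.mul_sum, ← Finset.sum_add_distrib]
    refine Finset.sum_congr rfl fun v _ => ?_
    by_cases hv : v ∈ U
    · simp [hv, hj v]
    · simp [hv]
  have h4 : ((∑ v, if v ∈ U then dd s t {v} else 0 : ℕ) : ℤ) =
      ∑ v, if v ∈ U then (dd s t {v} : ℤ) else 0 := by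
    push_cast
    rfl
  have h5 : ((∑ v, if v ∈ U then dd a b {v} else 0 : ℕ) : ℤ) =
      ∑ v, if v ∈ U then (dd a b {v} : ℤ) else 0 := by
    push_cast
    rfl
  rw [h1] at h4
  rw [h2] at h5
  push_cast at h4 h5
  refine ⟨j1 - j2 + ∑ v, if v ∈ U then j v else 0, ?_⟩
  linarith

theorem dd_sum {W : Type u} {B C : Type u} [Fintype B] [Fintype C] (a b : B → W) (c d : C → W)
    (U : Set W) :
    dd (Sum.elim a c) (Sum.elim b d) U = dd a b U + dd c d U := by
  unfold dd
  rw [Fintype.sum_sum_type]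
  rfl

theorem inn_sum {W : Type u} {B C : Type u} [Fintype B] [Fintype C] (a b : B → W) (c d : C → W)
    (O : B ⊕ C → Bool) (U : Set W) :
    inn (Sum.elim a c) (Sum.elim b d) O U =
      inn a b (fun x => O (Sum.inl x)) U + inn c d (fun x => O (Sum.inr x)) U := by
  unfold inn
  rw [Fintype.sum_sum_type]
  rfl

theorem sat_of_not_nsep (N U : Set V) (h : ¬ NSep N U) : Sat N U := by
  by_cases h1 : ∃ n ∈ N, n ∈ U
  · left
    intro x hx
    by_contra hc
    exact h ⟨h1, x, hx, hc⟩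
  · right
    intro x hx hc
    exact h1 ⟨x, hx, hc⟩

theorem card_CV (N : Set V) (n0 : V) (hn : n0 ∈ N) :
    Fintype.card (CV N n0) ≤ Nᶜ.ncard + 1 := by
  have h1 : Fintype.card (CV N n0) = {x : V | x ∉ N ∨ x = n0}.ncard := by
    rw [← Nat.card_coe_set_eq, Nat.card_eq_fintype_card]
    rfl
  have h2 : {x : V | x ∉ N ∨ x = n0} = insert n0 Nᶜ := by
    ext x
    simp only [Set.mem_ofPred_eq, Set.mem_insert_iff, Set.mem_compl_iff]
    tauto
  rw [h1, h2]
  exact Set.ncard_insert_le _ _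

theorem odd_CV (N : Set V) (n0 : V) (hn : n0 ∈ N) (s t : A → V) :
    {v : CV N n0 | Odd (dd (cmap N n0 ∘ s) (cmap N n0 ∘ t) {v})}.ncard ≤
      {v : V | v ∉ N ∧ Odd (dd s t {v})}.ncard + 1 := by
  have h1 : (Subtype.val '' {v : CV N n0 | Odd (dd (cmap N n0 ∘ s) (cmap N n0 ∘ t) {v})} : Set V) ⊆
      insert n0 {v : V | v ∉ N ∧ Odd (dd s t {v})} := by
    rintro x ⟨⟨y, hy⟩, hv, rfl⟩
    by_cases hyn : y = n0
    · exact Or.inl hyn
    · right
      have hyN : y ∉ N := by
        rcases hy with h | h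
        · exact h
        · exact absurd h hyn
      refine ⟨hyN, ?_⟩
      have h2 : (⟨y, hy⟩ : CV N n0) = cmap N n0 y := (cmap_not hyN).symm
      have h3 : Odd (dd (cmap N n0 ∘ s) (cmap N n0 ∘ t) {(⟨y, hy⟩ : CV N n0)}) := hv
      rw [h2, dd_comp, cmap_fiber_not hn hyN] at h3
      exact h3
  have h4 := Set.ncard_le_ncard h1 (Set.toFinite _)
  rw [Set.ncard_image_of_injective _ Subtype.val_injective] at h4
  exact h4.trans (Set.ncard_insert_le _ _)

theorem exists_orient (s t : A → V) (k : ℕ) (hk : 2 ≤ k) (N : Set V) (n0 : V) (hn : n0 ∈ N)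
    (h : ∀ U : Set V, U.Nonempty → Uᶜ.Nonempty → Sh s t U → 2 * k ≤ dd s t U)
    (hN : ∀ U : Set V, U.Nonempty → Uᶜ.Nonempty → NSep N U → 2 * k ≤ dd s t U)
    (hT : (Nᶜ.ncard + 1) * ({v : V | v ∉ N ∧ Odd (dd s t {v})}.ncard - 1) < 4 * k) :
    ∃ O : A → Bool, ∀ U : Set V, U.Nonempty → Uᶜ.Nonempty → Sh s t U → k ≤ inn s t O U := by
  obtain ⟨μ, hμ⟩ := pair_induction (A := A) k hk _ V s t N rfl
    (fun U hU hUc => ⟨two_le_dd s t k (by omega) h U hU hUc, hN U hU hUc⟩)
  have hsurj : Function.Surjective (cmap N n0) := cmap_surj hn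
  have hshr : ∀ U, Shr (cmap N n0 ∘ s) (cmap N n0 ∘ t) U →
      2 * k ≤ dd (cmap N n0 ∘ s) (cmap N n0 ∘ t) U := by
    rintro U ⟨h1, h2, h3⟩
    rw [dd_comp]
    refine h _ (h1.preimage hsurj) ?_ (Or.inl h3)
    rw [← Set.preimage_compl]
    exact h2.preimage hsurj
  have hT' : Fintype.card (CV N n0) *
      ({v : CV N n0 | Odd (dd (cmap N n0 ∘ s) (cmap N n0 ∘ t) {v})}.ncard - 2) < 4 * k := by
    refine lt_of_le_of_lt (Nat.mul_le_mul (card_CV N n0 hn) ?_) hT
    have := odd_CV N n0 hn s t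
    omega
  obtain ⟨E, hE, a, b, hab1, hab2, hab3⟩ := psh (cmap N n0 ∘ s) (cmap N n0 ∘ t) k (by omega)
    hshr hT'
  -- the combined graph
  have hdd : ∀ U : Set V, dd (ms μ) (mt μ) U = dM μ U := dd_pairs μ hμ.invol
  have hM : ∀ v, ∃ j : ℤ, (dd (ms μ) (mt μ) {v} : ℤ) = dd s t {v} + 2 * j := by
    intro v
    rw [hdd, dM_single]
    by_cases hv : μ v = v
    · rw [if_pos hv]
      have h1 : ¬ Odd (dd s t {v}) := fun h' => (hμ.odd v).mpr h' hv
      rw [Nat.not_odd_iff_even] at h1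
      obtain ⟨i, hi⟩ := h1
      exact ⟨-i, by rw [hi]; push_cast; ring⟩
    · rw [if_neg hv]
      obtain ⟨i, hi⟩ := (hμ.odd v).mp hv
      exact ⟨-i, by rw [hi]; push_cast; ring⟩
  have hM' := parity_congr s t (ms μ) (mt μ) hM
  obtain ⟨O2, hO2⟩ := hakimi (Sum.elim a (cmap N n0 ∘ ms μ)) (Sum.elim b (cmap N n0 ∘ mt μ))
    (fun _ => 0) (by
      intro u
      rw [dd_sum, dd_comp]
      obtain ⟨j1, hj1⟩ := hab2 u
      obtain ⟨j2, hj2⟩ := hM' (cmap N n0 ⁻¹' {u})
      rw [dd_comp] at hj1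
      push_cast
      rw [hj1, hj2]
      exact ⟨dd s t (cmap N n0 ⁻¹' {u}) + j1 + j2, by ring⟩) (by simp [xs]) (by
      intro U
      have : xs (fun _ : CV N n0 => (0 : ℤ)) U = 0 := by simp [xs]
      rw [this]
      positivity)
  have hz : ∀ U : Set (CV N n0), xs (fun _ : CV N n0 => (0 : ℤ)) U = 0 := fun U => by simp [xs]
  obtain ⟨x, hx⟩ : ∃ x : V → ℤ, x = fun v => (inn (ms μ) (mt μ) (fun m => O2 (Sum.inr m)) {v}ᶜ : ℤ)
      - inn (ms μ) (mt μ) (fun m => O2 (Sum.inr m)) {v} := ⟨_, rfl⟩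
  have hnet : ∀ U : Set V, (inn (ms μ) (mt μ) (fun m => O2 (Sum.inr m)) Uᶜ : ℤ)
      - inn (ms μ) (mt μ) (fun m => O2 (Sum.inr m)) U = xs x U := by
    intro U
    exact net_of_singletons (ms μ) (mt μ) (fun m => O2 (Sum.inr m)) x (fun u => by rw [hx]) U
  have habs : ∀ U : Set V, |xs x U| ≤ dM μ U := by
    intro U
    rw [← hnet, ← hdd]
    exact inn_le_dd _ _ _ _
  have habs2 : ∀ U : Set (CV N n0), |xs x (cmap N n0 ⁻¹' U)| ≤ dd a b U := by
    intro U
    have h1 := hO2 U
    rw [hz, inn_sum, inn_sum, inn_comp, inn_comp, Set.preimage_compl] at h1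
    have h2 := hnet (cmap N n0 ⁻¹' U)
    have h3 := inn_le_dd a b (fun m => O2 (Sum.inl m)) U
    push_cast at h1
    have h4 : xs x (cmap N n0 ⁻¹' U) = - ((inn a b (fun m => O2 (Sum.inl m)) Uᶜ : ℤ) -
        inn a b (fun m => O2 (Sum.inl m)) U) := by
      linarith
    rw [h4, abs_neg]
    exact h3
  have hempty : xs x ∅ = 0 := by simp [xs]
  have huniv : xs x Set.univ = 0 := by
    have h1 := habs Set.univ
    have h2 : dM μ Set.univ = 0 := by simp [dM]
    rw [h2] at h1
    exact abs_eq_zero.1 (le_antisymm (by exact_mod_cast h1) (abs_nonneg _))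
  obtain ⟨O, hO⟩ := hakimi s t x (by
      intro v
      have h1 := hnet {v}
      rw [xs_singleton] at h1
      have h2 := inn_add_compl (ms μ) (mt μ) (fun m => O2 (Sum.inr m)) {v}
      obtain ⟨j, hj⟩ := hM v
      have h3 : (inn (ms μ) (mt μ) (fun m => O2 (Sum.inr m)) {v} : ℤ) +
        inn (ms μ) (mt μ) (fun m => O2 (Sum.inr m)) {v}ᶜ = dd (ms μ) (mt μ) {v} := by
        exact_mod_cast h2
      refine ⟨dd s t {v} + j - inn (ms μ) (mt μ) (fun m => O2 (Sum.inr m)) {v}, ?_⟩
      linarith) huniv (by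
      intro U
      by_cases h1 : U.Nonempty
      · by_cases h2 : Uᶜ.Nonempty
        · have h3 := (hμ.bd U h1 h2).1
          have h4 := le_of_abs_le (habs U)
          have h5 : (dM μ U : ℤ) + 2 ≤ dd s t U := by exact_mod_cast h3
          linarith
        · have : U = Set.univ := by
            rw [Set.not_nonempty_iff_eq_empty, Set.compl_empty_iff] at h2
            exact h2
          rw [this, huniv]
          positivity
      · rw [Set.not_nonempty_iff_eq_empty] at h1
        rw [h1, hempty]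
        positivity)
  have key : ∀ U : Set V, U.Nonempty → Uᶜ.Nonempty → Sh s t U →
      |xs x U| + 2 * k ≤ dd s t U := by
    intro U hU hUc hS
    by_cases hs : NSep N U
    · have h1 := (hμ.bd U hU hUc).2 hs
      have h2 := habs U
      have h3 : (dM μ U : ℤ) + 2 * k ≤ dd s t U := by exact_mod_cast h1
      linarith
    · obtain ⟨U', hU'⟩ : ∃ U' : Set (CV N n0), cmap N n0 ⁻¹' U' = U :=
        ⟨_, preimage_sat hn (sat_of_not_nsep N U hs)⟩
      have hne : U'.Nonempty := by
        obtain ⟨y, hy⟩ := hU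
        rw [← hU'] at hy
        exact ⟨_, hy⟩
      have hnc : U'ᶜ.Nonempty := by
        obtain ⟨y, hy⟩ := hUc
        rw [← hU', ← Set.preimage_compl] at hy
        exact ⟨_, hy⟩
      have h1 := habs2 U'
      rw [hU'] at h1
      have h2 : dd a b U' + 2 * k ≤ dd s t U := by
        rw [← hU', ← dd_comp]
        rcases hS with hS | hS
        · refine hab3 U' ⟨hne, hnc, fun e he => ?_⟩
          have h3 : t e ∈ U := by rw [← hU']; exact he
          have h4 := hS e h3
          rw [← hU'] at h4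
          exact h4
        · obtain ⟨Y, hY⟩ : ∃ Y : Set (CV N n0), Y = U'ᶜ := ⟨_, rfl⟩
          have h5 : dd a b U' = dd a b Y := by rw [hY, dd_compl]
          have h6 : dd (cmap N n0 ∘ s) (cmap N n0 ∘ t) U' =
              dd (cmap N n0 ∘ s) (cmap N n0 ∘ t) Y := by rw [hY, dd_compl]
          rw [h5, h6]
          refine hab3 Y ⟨hY ▸ hnc, by rw [hY, compl_compl]; exact hne, fun e he => ?_⟩
          rw [hY] at he ⊢
          intro h7
          apply he
          have h8 : s e ∈ U := by rw [← hU']; exact h7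
          have h9 := hS e h8
          rw [← hU'] at h9
          exact h9
      have h3 : (dd a b U' : ℤ) + 2 * k ≤ dd s t U := by exact_mod_cast h2
      linarith
  refine ⟨O, fun U hU hUc hS => ?_⟩
  have h1 := key U hU hUc hS
  have h2 := hO U
  have h3 := inn_add_compl s t O U
  have h4 := le_abs_self (xs x U)
  have h5 : (inn s t O U : ℤ) + inn s t O Uᶜ = dd s t U := by exact_mod_cast h3
  have h6 : (k : ℤ) ≤ inn s t O U := by linarith
  exact_mod_cast h6

end Pool.Agent.LK9e
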