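import Mathlib

/-!
A finite family of vectors has a small subfamily such that every member is a linear combination
of the subfamily with coefficients in `[-1, 1]` (a subfamily of maximal determinant).
-/

set_option autoImplicit false
set_option linter.unusedSectionVars false

namespace Pool.Agent.LK9e

open Classical Module

theorem spanner_aux {M : Type*} [AddCommGroup M] [Module ℚ M] [FiniteDimensional ℚ M]
    {ι : Type*} [Finite ι] (f : ι → M) (hf : Submodule.span ℚ (Set.range f) = ⊤) :
    ∃ v : Fin (finrank ℚ M) → ι, ∀ i, ∃ α : Fin (finrank ℚ M) → ℚ, (∀ j, |α j| ≤ 1) ∧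
      f i = ∑ j, α j • f (v j) := by
  have h1 := Submodule.exists_fun_fin_finrank_span_eq ℚ (Set.range f)
  rw [hf, finrank_top] at h1
  obtain ⟨g, hg, hgs, hgl⟩ := h1
  choose w hw using hg
  have hgw : g = f ∘ w := funext fun i => (hw i).symm
  let e := finBasis ℚ M
  let D : (Fin (finrank ℚ M) → ι) → ℚ := fun v => |e.det (f ∘ v)|
  have : Nonempty (Fin (finrank ℚ M) → ι) := ⟨w⟩
  obtain ⟨v, hv⟩ := Finite.exists_max D
  have hDw : D w ≠ 0 := by
    have h2 := (Basis.is_basis_iff_det e (v := g)).1 ⟨hgl, hgs⟩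
    rw [hgw] at h2
    exact abs_ne_zero.2 h2.ne_zero
  have hDv : 0 < D v := lt_of_lt_of_le (lt_of_le_of_ne (abs_nonneg _) (Ne.symm hDw)) (hv w)
  have hu : e.det (f ∘ v) ≠ 0 := fun h => by
    simp only [D, h, abs_zero] at hDv
    exact lt_irrefl _ hDv
  obtain ⟨hli, hsp⟩ := (Basis.is_basis_iff_det e (v := f ∘ v)).2 (isUnit_iff_ne_zero.2 hu)
  refine ⟨v, fun i => ?_⟩
  let b := Basis.mk hli hsp.ge
  refine ⟨fun j => b.coord j (f i), fun j => ?_, ?_⟩
  · have h3 := Basis.det_smul_mk_coord_eq_det_update e hli hsp.ge j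
    have h4 := LinearMap.congr_fun h3 (f i)
    rw [LinearMap.smul_apply, smul_eq_mul] at h4
    have h5 : e.det.toMultilinearMap.toLinearMap (f ∘ v) j (f i) =
        e.det (f ∘ Function.update v j i) := by
      rw [MultilinearMap.toLinearMap_apply, Function.comp_update]
      rfl
    rw [h5] at h4
    have h6 := hv (Function.update v j i)
    have h7 : D v * |b.coord j (f i)| = D (Function.update v j i) := by
      simp only [D]
      rw [← abs_mul, h4]
    rw [← h7] at h6
    by_contra h8
    push Not at h8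
    have := mul_lt_mul_of_pos_left h8 hDv
    rw [mul_one] at this
    exact absurd h6 (not_le.2 this)
  · have h3 := b.sum_repr (f i)
    rw [← h3]
    refine Finset.sum_congr rfl fun j _ => ?_
    rw [h3]
    simp [b, Basis.coord_apply]

/-- every finite family of vectors has a subfamily of size at most the dimension which spans it
with coefficients in `[-1, 1]`. -/
theorem spanner {κ ι : Type*} [Fintype κ] [Finite ι] (f : ι → κ → ℚ) :
    ∃ (r : ℕ) (v : Fin r → ι), r ≤ Fintype.card κ ∧ ∀ i, ∃ α : Fin r → ℚ, (∀ j, |α j| ≤ 1) ∧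
      f i = ∑ j, α j • f (v j) := by
  let S := Submodule.span ℚ (Set.range f)
  let f' : ι → S := fun i => ⟨f i, Submodule.subset_span ⟨i, rfl⟩⟩
  have hf' : Submodule.span ℚ (Set.range f') = ⊤ := by
    have h := Submodule.span_span_coe_preimage (R := ℚ) (s := Set.range f)
    convert h using 2
    ext x
    constructor
    · rintro ⟨i, rfl⟩; exact ⟨i, rfl⟩
    · rintro ⟨i, hi⟩; exact ⟨i, Subtype.ext hi⟩
  obtain ⟨v, hv⟩ := spanner_aux f' hf'
  refine ⟨finrank ℚ S, v, ?_, fun i => ?_⟩
  · have := Submodule.finrank_le S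
    rwa [finrank_fintype_fun_eq_card] at this
  · obtain ⟨α, h1, h2⟩ := hv i
    refine ⟨α, h1, ?_⟩
    have h3 := congrArg (Submodule.subtype S) h2
    rw [map_sum] at h3
    simpa [f'] using h3

end Pool.Agent.LK9e
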