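import Pool.Agent.Lib_MP_9e7d46_lk.Potential
import Pool.Agent.Lib_MP_9e7d46_lk.Span

/-!
A matching of the odd vertices which is small on all shores, when the number of vertices is
small compared with `k`.
-/

set_option autoImplicit false
set_option linter.unusedSectionVars false

namespace Pool.Agent.LK9e

open Classical Pool.Agent.DJ9e

universe u v

variable {V : Type u} {A : Type v} [Fintype V] [Fintype A]

/-- the indicator of `U` normalised at `v0`. -/
noncomputable def gind (v0 : V) (U : Set V) (v : V) : ℚ :=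
  (if v ∈ U then 1 else 0) - (if v0 ∈ U then 1 else 0)

theorem xs_gind (v0 : V) (U : Set V) (z : V → ℤ) (hz : xs z Set.univ = 0) :
    (xs z U : ℚ) = ∑ v, (z v : ℚ) * gind v0 U v := by
  have h1 : (∑ v, (z v : ℚ)) = 0 := by
    unfold xs at hz
    simp only [Set.mem_univ, if_true] at hz
    exact_mod_cast hz
  unfold gind xs
  push_cast
  have h2 : ∀ v, (z v : ℚ) * ((if v ∈ U then 1 else 0) - (if v0 ∈ U then 1 else 0)) =
      (if v ∈ U then (z v : ℚ) else 0) - (z v : ℚ) * (if v0 ∈ U then 1 else 0) := by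
    intro v
    split_ifs <;> ring
  simp only [h2]
  rw [Finset.sum_sub_distrib, ← Finset.sum_mul, h1, zero_mul, sub_zero]

/-- few sets of a family span the family with small coefficients. -/
theorem small_span (C : Set (Set V)) [Nonempty V] :
    ∃ (r : ℕ) (W : Fin r → Set V), (∀ j, W j ∈ C) ∧ r + 1 ≤ Fintype.card V ∧
      ∀ U ∈ C, ∃ α : Fin r → ℚ, (∀ j, |α j| ≤ 1) ∧
        ∀ z : V → ℤ, xs z Set.univ = 0 → (xs z U : ℚ) = ∑ j, α j * (xs z (W j) : ℚ) := by
  obtain ⟨v0⟩ := ‹Nonempty V›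
  obtain ⟨r, W, hr, hW⟩ := spanner (fun (U : C) (v : {v : V // v ≠ v0}) => gind v0 U.1 v.1)
  refine ⟨r, fun j => (W j).1, fun j => (W j).2, ?_, ?_⟩
  · have h1 : Fintype.card {v : V // v ≠ v0} < Fintype.card V :=
      Fintype.card_subtype_lt (x := v0) (by simp)
    omega
  · intro U hU
    obtain ⟨α, h1, h2⟩ := hW ⟨U, hU⟩
    refine ⟨α, h1, fun z hz => ?_⟩
    have h3 : ∀ v, gind v0 U v = ∑ j, α j * gind v0 (W j).1 v := by
      intro v
      by_cases hv : v = v0
      · subst hv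
        simp [gind]
      · have := congrFun h2 ⟨v, hv⟩
        simp only [Finset.sum_apply, Pi.smul_apply, smul_eq_mul] at this
        exact this
    rw [xs_gind v0 U z hz]
    simp only [h3, xs_gind v0 _ z hz]
    simp only [Finset.mul_sum]
    rw [Finset.sum_comm]
    refine Finset.sum_congr rfl fun j _ => Finset.sum_congr rfl fun v _ => ?_
    ring

theorem psh (s t : A → V) (k : ℕ) (hk0 : 1 ≤ k)
    (hsh : ∀ U, Shr s t U → 2 * k ≤ dd s t U)
    (hT : Fintype.card V * ({v : V | Odd (dd s t {v})}.ncard - 2) < 4 * k) :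
    ∃ (E : Type u) (_ : Fintype E) (a b : E → V),
      (∀ v, dd a b {v} ≤ 1) ∧ (∀ v, ∃ j : ℤ, (dd a b {v} : ℤ) = dd s t {v} + 2 * j) ∧
      ∀ U, Shr s t U → dd a b U + 2 * k ≤ dd s t U := by
  rcases isEmpty_or_nonempty V with hV | hV
  · refine ⟨PEmpty, inferInstance, fun e => e.elim, fun e => e.elim, fun v => hV.elim v,
      fun v => hV.elim v, ?_⟩
    rintro U ⟨⟨x, -⟩, -⟩
    exact hV.elim x
  obtain ⟨T, hTdef⟩ : ∃ T : Set V, T = {v : V | Odd (dd s t {v})} := ⟨_, rfl⟩
  rw [← hTdef] at hT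
  have hTmem : ∀ v, v ∈ T ↔ Odd (dd s t {v}) := fun v => by rw [hTdef]; rfl
  obtain ⟨τ, hτ⟩ : ∃ τ, τ = T.ncard / 2 := ⟨_, rfl⟩
  obtain ⟨r, W, hWC, hr, hspan⟩ := small_span (V := V)
    {U | Shr s t U ∧ dd s t U + 1 ≤ 2 * k + τ}
  have hWs : ∀ j, Shr s t (W j) := fun j => (hWC j).1
  have hW1 : ∀ j, (dd s t (W j) : ℤ) - 2 * k ≤ τ - 1 := fun j => by
    have := (hWC j).2
    omega
  have hW0 : ∀ j, 0 ≤ (dd s t (W j) : ℤ) - 2 * k := fun j => by
    have := hsh _ (hWs j)
    omega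
  have hnτ : 1 ≤ τ → (Fintype.card V : ℤ) * (τ - 1) < 2 * k := by
    intro h1
    have h2 : 2 * (τ - 1) ≤ T.ncard - 2 := by omega
    have h3 : Fintype.card V * (2 * (τ - 1)) < 4 * k :=
      lt_of_le_of_lt (Nat.mul_le_mul_left _ h2) hT
    have h4 : Fintype.card V * (τ - 1) < 2 * k := by
      have : Fintype.card V * (2 * (τ - 1)) = 2 * (Fintype.card V * (τ - 1)) := by ring
      omega
    have h5 : ((Fintype.card V * (τ - 1) : ℕ) : ℤ) < ((2 * k : ℕ) : ℤ) := by exact_mod_cast h4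
    push_cast [Nat.cast_sub h1] at h5
    exact h5
  have hrτ : (r : ℤ) * (τ - 1) < 2 * k := by
    rcases Nat.eq_zero_or_pos τ with h0 | h1
    · rw [h0]
      push_cast
      have : (0 : ℤ) ≤ r := by positivity
      have hk1 : (1 : ℤ) ≤ k := by exact_mod_cast hk0
      linarith
    · have h2 := hnτ h1
      have h3 : (r : ℤ) ≤ Fintype.card V := by omega
      have h4 : (0 : ℤ) ≤ τ - 1 := by omega
      have := mul_le_mul_of_nonneg_right h3 h4
      linarith
  obtain ⟨y, hy, hyW⟩ := exists_y s t k (fun U hU => ⟨by have := hsh U hU; omega, hsh U hU⟩)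
    W hWs (by
      have h1 : ∑ j, ((dd s t (W j) : ℤ) - 2 * k) ≤ ∑ _j : Fin r, ((τ : ℤ) - 1) :=
        Finset.sum_le_sum fun j _ => hW1 j
      rw [Finset.sum_sub_distrib] at h1
      simp only [Finset.sum_const, Finset.card_univ, Fintype.card_fin, nsmul_eq_mul] at h1
      linarith)
  have hcrit : ∀ U, Shr s t U → dd s t U + 1 ≤ 2 * k + τ → xs y U = 1 := by
    intro U hU hUc
    have hτ1 : 1 ≤ τ := by
      have := hsh U hU
      omega
    obtain ⟨α, hα, hrel⟩ := hspan U ⟨hU, hUc⟩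
    have h1 := hrel y hy.1
    have h2 := hrel (bal s t) (xs_bal_univ s t)
    simp only [hyW, Int.cast_one, mul_one] at h1
    rw [xs_bal_closed s t U hU.2.2] at h2
    have h3 : ∀ j, (xs (bal s t) (W j) : ℚ) = (dd s t (W j) : ℚ) := fun j => by
      rw [xs_bal_closed s t _ (hWs j).2.2]
      push_cast
      rfl
    simp only [h3] at h2
    push_cast at h2
    have h4 : (dd s t U : ℚ) - 2 * k * (xs y U : ℚ) =
        ∑ j, α j * ((dd s t (W j) : ℚ) - 2 * k) := by
      rw [h2, h1, Finset.mul_sum, ← Finset.sum_sub_distrib]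
      refine Finset.sum_congr rfl fun j _ => ?_
      ring
    have h5 : -(r * ((τ : ℚ) - 1)) ≤ ∑ j, α j * ((dd s t (W j) : ℚ) - 2 * k) := by
      have h6 : ∀ j, -((τ : ℚ) - 1) ≤ α j * ((dd s t (W j) : ℚ) - 2 * k) := by
        intro j
        have h7 := hW1 j
        have h8 := hW0 j
        have h7' : (dd s t (W j) : ℚ) - 2 * k ≤ τ - 1 := by exact_mod_cast h7
        have h8' : (0 : ℚ) ≤ (dd s t (W j) : ℚ) - 2 * k := by exact_mod_cast h8
        have h9 := abs_le.1 (hα j)
        nlinarith [mul_nonneg (by linarith [h9.1] : (0 : ℚ) ≤ α j + 1) h8']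
      calc -(r * ((τ : ℚ) - 1)) = ∑ _j : Fin r, -((τ : ℚ) - 1) := by
            simp only [Finset.sum_const, Finset.card_univ, Fintype.card_fin, nsmul_eq_mul]
            ring
        _ ≤ _ := Finset.sum_le_sum fun j _ => h6 j
    have h10 : 2 * (k : ℚ) * (xs y U : ℚ) ≤ dd s t U + r * ((τ : ℚ) - 1) := by linarith
    have h11 : 2 * (k : ℤ) * xs y U ≤ dd s t U + r * ((τ : ℤ) - 1) := by exact_mod_cast h10
    have h12 : (dd s t U : ℤ) ≤ 2 * k + (τ - 1) := by omega
    have h13 : ((r : ℤ) + 1) * (τ - 1) ≤ Fintype.card V * (τ - 1) :=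
      mul_le_mul_of_nonneg_right (by exact_mod_cast hr) (by omega)
    have h14 := hnτ hτ1
    have h15 : 2 * (k : ℤ) * xs y U < 2 * k * 2 := by linarith
    have h16 : xs y U < 2 := lt_of_mul_lt_mul_left h15 (by positivity)
    have h17 := hy.2 U hU
    omega
  obtain ⟨E, _, a, b, hle, hdiv⟩ := root_cone (fun U => Shr s t U ∧ xs y U = 1)
    (tight_crossing s t y hy) (fun v => bal s t v + (-(2 * k : ℤ)) * y v)
    (by rw [slack_xs, xs_bal_univ, hy.1]; ring)
    (by
      rintro U ⟨hU, hU1⟩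
      rw [slack_xs, hU1, xs_bal_closed s t U hU.2.2]
      have := hsh U hU
      have : (2 * k : ℤ) ≤ dd s t U := by exact_mod_cast this
      linarith)
  obtain ⟨a', b', hj, h1⟩ := tjoin _ a b rfl
  have hpar : ∀ v, ∃ j : ℤ, (dd a' b' {v} : ℤ) = dd s t {v} + 2 * j := by
    intro v
    obtain ⟨j1, h2⟩ := net_parity a b {v}
    obtain ⟨j2, h3⟩ := net_parity s t {v}
    obtain ⟨j3, h4⟩ := hj {v}
    have h5 := hdiv {v}
    rw [slack_xs, xs_bal] at h5
    rw [h2, h3] at h5
    have h6 : (dd a b {v} : ℤ) = dd a' b' {v} + 2 * j3 := by exact_mod_cast h4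
    refine ⟨j2 - k * xs y {v} - j1 - j3, ?_⟩
    linarith
  refine ⟨E, inferInstance, a', b', h1, hpar, ?_⟩
  intro U hU
  by_cases hUc : dd s t U + 1 ≤ 2 * k + τ
  · have h2 := hcrit U hU hUc
    have h3 := hdiv U
    rw [slack_xs, h2, xs_bal_closed s t U hU.2.2,
      net_closed a b U (fun e he => hle e U ⟨hU, h2⟩ he)] at h3
    obtain ⟨j3, h4⟩ := hj U
    omega
  · have h2 : 2 * dd a' b' U ≤ T.ncard := by
      have h3 := dd_le_deg a' b' U
      obtain ⟨Y, hY⟩ : ∃ Y : Set V, Y = Uᶜ := ⟨_, rfl⟩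
      have h4 := dd_le_deg a' b' Y
      have h4' : dd a' b' Y = dd a' b' U := by rw [hY, dd_compl]
      have h5 : (∑ v, if v ∈ U then dd a' b' {v} else 0) +
          (∑ v, if v ∈ Y then dd a' b' {v} else 0) = ∑ v, dd a' b' {v} := by
        rw [← Finset.sum_add_distrib]
        refine Finset.sum_congr rfl fun v _ => ?_
        rw [hY]
        by_cases hv : v ∈ U <;> simp [hv]
      have h6 : ∑ v, dd a' b' {v} ≤ ∑ v, if v ∈ T then 1 else 0 := by
        refine Finset.sum_le_sum fun v _ => ?_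
        by_cases hv : v ∈ T
        · rw [if_pos hv]; exact h1 v
        · rw [if_neg hv]
          obtain ⟨j, hj⟩ := hpar v
          have h7 := h1 v
          rw [hTmem, Nat.not_odd_iff_even] at hv
          obtain ⟨i, hi⟩ := hv
          omega
      have h7 : (∑ v, if v ∈ T then 1 else 0) = T.ncard := by
        rw [Set.ncard_eq_toFinset_card', ← Finset.card_filter]
        congr 1
        ext v
        simp
      omega
    omega

end Pool.Agent.LK9e
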