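import Pool.Agent.Lib_MP_9e7d46_lk.Cone
import Pool.Agent.Lib_MP_9e7d46_lk.Tjoin

/-!
An integral vector which is at least `1` on all shores and equal to `1` on given shores with
small total slack.
-/

set_option autoImplicit false
set_option linter.unusedSectionVars false

namespace Pool.Agent.LK9e

open Classical Pool.Agent.DJ9e

universe u v

variable {V : Type u} {A : Type v}

/-- no arc enters `U`. -/
def Cl (s t : A → V) (U : Set V) : Prop := ∀ e, t e ∈ U → s e ∈ U

/-- shores of directed cuts. -/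
def Shr (s t : A → V) (U : Set V) : Prop := U.Nonempty ∧ Uᶜ.Nonempty ∧ Cl s t U

theorem shr_cross (s t : A → V) (U W : Set V) (hU : Shr s t U) (hW : Shr s t W)
    (h1 : (U ∩ W).Nonempty) (h2 : U ∪ W ≠ Set.univ) :
    Shr s t (U ∩ W) ∧ Shr s t (U ∪ W) := by
  obtain ⟨-, ⟨x, hx⟩, hU⟩ := hU
  obtain ⟨-, -, hW⟩ := hW
  refine ⟨⟨h1, ⟨x, fun h => hx h.1⟩, fun e he => ⟨hU e he.1, hW e he.2⟩⟩,
    ⟨h1.mono fun y hy => Or.inl hy.1, Set.nonempty_compl.2 h2, fun e he => ?_⟩⟩
  rcases he with he | he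
  · exact Or.inl (hU e he)
  · exact Or.inr (hW e he)

section

variable [Fintype V] [Fintype A]

/-- number of leaving minus number of entering arcs. -/
noncomputable def bal (s t : A → V) (v : V) : ℤ :=
  ∑ a, ((if s a = v then (1 : ℤ) else 0) - (if t a = v then 1 else 0))

theorem xs_bal (s t : A → V) (U : Set V) :
    xs (bal s t) U =
      ∑ a, ((if s a ∈ U then (1 : ℤ) else 0) - (if t a ∈ U then 1 else 0)) := by
  unfold xs bal
  have h : ∀ v, (if v ∈ U then ∑ a, ((if s a = v then (1 : ℤ) else 0) -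
      (if t a = v then 1 else 0)) else 0) =
      ∑ a, ((if s a = v then (if s a ∈ U then (1 : ℤ) else 0) else 0) -
        (if t a = v then (if t a ∈ U then 1 else 0) else 0)) := by
    intro v
    by_cases hv : v ∈ U
    · rw [if_pos hv]
      refine Finset.sum_congr rfl fun a _ => ?_
      by_cases h1 : s a = v <;> by_cases h2 : t a = v <;> simp [h1, h2, hv]
    · rw [if_neg hv]
      symm
      refine Finset.sum_eq_zero fun a _ => ?_
      by_cases h1 : s a = v <;> by_cases h2 : t a = v <;> simp [h1, h2, hv]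
  simp only [h]
  rw [Finset.sum_comm]
  refine Finset.sum_congr rfl fun a _ => ?_
  rw [Finset.sum_sub_distrib]
  simp

theorem net_closed (s t : A → V) (U : Set V) (h : Cl s t U) :
    (∑ a, ((if s a ∈ U then (1 : ℤ) else 0) - (if t a ∈ U then 1 else 0))) = dd s t U := by
  unfold dd
  push_cast
  refine Finset.sum_congr rfl fun a _ => ?_
  have := h a
  by_cases h1 : s a ∈ U <;> by_cases h2 : t a ∈ U <;> simp_all

theorem xs_bal_closed (s t : A → V) (U : Set V) (h : Cl s t U) :
    xs (bal s t) U = dd s t U := by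
  rw [xs_bal, net_closed s t U h]

theorem xs_bal_univ (s t : A → V) : xs (bal s t) Set.univ = 0 := by
  rw [xs_bal]
  simp

theorem net_parity (s t : A → V) (U : Set V) :
    ∃ j : ℤ, (∑ a, ((if s a ∈ U then (1 : ℤ) else 0) - (if t a ∈ U then 1 else 0))) =
      dd s t U + 2 * j := by
  have key : ∀ a, ∃ j : ℤ, ((if s a ∈ U then (1 : ℤ) else 0) - (if t a ∈ U then 1 else 0)) =
      (if (s a ∈ U ↔ t a ∈ U) then 0 else 1) + 2 * j := by
    intro a
    by_cases h1 : s a ∈ U <;> by_cases h2 : t a ∈ U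
    · exact ⟨0, by simp [h1, h2]⟩
    · exact ⟨0, by simp [h1, h2]⟩
    · exact ⟨-1, by simp [h1, h2]⟩
    · exact ⟨0, by simp [h1, h2]⟩
  choose j hj using key
  refine ⟨∑ a, j a, ?_⟩
  unfold dd
  push_cast
  rw [Finset.mul_sum, ← Finset.sum_add_distrib]
  exact Finset.sum_congr rfl fun a _ => hj a

theorem xs_add (x y : V → ℤ) (U : Set V) : xs (fun v => x v + y v) U = xs x U + xs y U := by
  unfold xs
  rw [← Finset.sum_add_distrib]
  refine Finset.sum_congr rfl fun v _ => ?_
  by_cases h : v ∈ U <;> simp [h]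

theorem xs_mul (c : ℤ) (x : V → ℤ) (U : Set V) : xs (fun v => c * x v) U = c * xs x U := by
  unfold xs
  rw [Finset.mul_sum]
  refine Finset.sum_congr rfl fun v _ => ?_
  by_cases h : v ∈ U <;> simp [h]

theorem xs_delta (p : V) (U : Set V) :
    xs (fun v => if v = p then (1 : ℤ) else 0) U = if p ∈ U then 1 else 0 := by
  unfold xs
  have h : ∀ v, (if v ∈ U then (if v = p then (1 : ℤ) else 0) else 0) =
      if v = p then (if p ∈ U then 1 else 0) else 0 := by
    intro v
    by_cases h1 : v = p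
    · subst h1; simp
    · simp [h1]
  simp only [h]
  simp

/-- `y` is a potential: total zero, at least one on every shore. -/
def Valid (s t : A → V) (y : V → ℤ) : Prop :=
  xs y Set.univ = 0 ∧ ∀ U, Shr s t U → 1 ≤ xs y U

theorem tight_crossing (s t : A → V) (y : V → ℤ) (hy : Valid s t y) :
    Crossing (fun U => Shr s t U ∧ xs y U = 1) := by
  rintro U W ⟨hU, hU1⟩ ⟨hW, hW1⟩ h1 h2
  obtain ⟨h3, h4⟩ := shr_cross s t U W hU hW h1 h2
  have h5 := xs_mod y U W
  have h6 := hy.2 _ h3
  have h7 := hy.2 _ h4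
  exact ⟨⟨h3, by linarith⟩, ⟨h4, by linarith⟩⟩

/-- the slack vector of a potential. -/
theorem slack_xs (s t : A → V) (k : ℕ) (y : V → ℤ) (U : Set V) :
    xs (fun v => bal s t v + (-(2 * k : ℤ)) * y v) U = xs (bal s t) U - 2 * k * xs y U := by
  rw [xs_add, xs_mul]
  ring

theorem exists_y (s t : A → V) (k : ℕ)
    (hk : ∀ U, Shr s t U → 1 ≤ dd s t U ∧ 2 * k ≤ dd s t U)
    {r : ℕ} (W : Fin r → Set V) (hW : ∀ j, Shr s t (W j))
    (hsum : ∑ j, (dd s t (W j) : ℤ) < 2 * k * (r + 1)) :
    ∃ y : V → ℤ, Valid s t y ∧ ∀ j, xs y (W j) = 1 := by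
  have hne : ∃ c : ℕ, ∃ y : V → ℤ, Valid s t y ∧ ∑ j, xs y (W j) = (c : ℤ) := by
    refine ⟨∑ j, dd s t (W j), bal s t, ⟨xs_bal_univ s t, fun U hU => ?_⟩, ?_⟩
    · rw [xs_bal_closed s t U hU.2.2]
      exact_mod_cast (hk U hU).1
    · push_cast
      exact Finset.sum_congr rfl fun j _ => xs_bal_closed s t _ (hW j).2.2
  obtain ⟨y, hy, hc⟩ := Nat.find_spec hne
  have hmin := fun m (hm : m < Nat.find hne) => Nat.find_min hne hm
  obtain ⟨E, _, a, b, hle, hdiv⟩ := root_cone (fun U => Shr s t U ∧ xs y U = 1)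
    (tight_crossing s t y hy) (fun v => bal s t v + (-(2 * k : ℤ)) * y v)
    (by rw [slack_xs, xs_bal_univ, hy.1]; ring)
    (by
      rintro U ⟨hU, hU1⟩
      rw [slack_xs, hU1, xs_bal_closed s t U hU.2.2]
      have := (hk U hU).2
      have : (2 * k : ℤ) ≤ dd s t U := by exact_mod_cast this
      linarith)
  have hstep : ∀ e, 0 ≤ ∑ j, ((if a e ∈ W j then (1 : ℤ) else 0) -
      (if b e ∈ W j then 1 else 0)) := by
    intro e
    by_contra hneg
    push Not at hneg
    let y1 : V → ℤ := fun v => y v + ((if v = a e then 1 else 0) +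
      (-1) * (if v = b e then 1 else 0))
    have hy1 : ∀ U, xs y1 U = xs y U + ((if a e ∈ U then 1 else 0) -
        (if b e ∈ U then 1 else 0)) := by
      intro U
      have h1 : xs y1 U = xs y U + xs (fun v => (if v = a e then (1 : ℤ) else 0) +
          (-1) * (if v = b e then 1 else 0)) U :=
        xs_add y (fun v => (if v = a e then (1 : ℤ) else 0) +
          (-1) * (if v = b e then 1 else 0)) U
      rw [h1, xs_add (fun v => if v = a e then (1 : ℤ) else 0)
        (fun v => (-1) * (if v = b e then (1 : ℤ) else 0)),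
        xs_mul (-1) (fun v => if v = b e then (1 : ℤ) else 0), xs_delta, xs_delta]
      ring
    have hval : Valid s t y1 := by
      refine ⟨?_, fun U hU => ?_⟩
      · rw [hy1, hy.1]; simp
      · rw [hy1]
        have h2 := hy.2 U hU
        by_cases h3 : xs y U = 1
        · have h4 := hle e U ⟨hU, h3⟩
          by_cases h5 : b e ∈ U
          · simp [h5, h4 h5, h3]
          · rw [h3, if_neg h5]
            split_ifs <;> norm_num
        · have h6 : 2 ≤ xs y U := by omega
          split_ifs <;> linarith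
    have hs : ∑ j, xs y1 (W j) < (Nat.find hne : ℤ) := by
      simp only [hy1]
      rw [Finset.sum_add_distrib, hc]
      linarith
    have h0 : 0 ≤ ∑ j, xs y1 (W j) := Finset.sum_nonneg fun j _ =>
      le_trans zero_le_one (hval.2 _ (hW j))
    refine hmin (∑ j, xs y1 (W j)).toNat ?_ ⟨y1, hval, ?_⟩
    · omega
    · omega
  have htot : 0 ≤ ∑ j, xs (fun v => bal s t v + (-(2 * k : ℤ)) * y v) (W j) := by
    simp only [hdiv]
    rw [Finset.sum_comm]
    exact Finset.sum_nonneg fun e _ => hstep e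
  have h1 : ∑ j, xs (fun v => bal s t v + (-(2 * k : ℤ)) * y v) (W j) =
      ∑ j, (dd s t (W j) : ℤ) - 2 * k * ∑ j, xs y (W j) := by
    rw [Finset.mul_sum, ← Finset.sum_sub_distrib]
    refine Finset.sum_congr rfl fun j _ => ?_
    rw [slack_xs, xs_bal_closed s t _ (hW j).2.2]
  rw [h1] at htot
  have h2 : (2 * k : ℤ) * ∑ j, xs y (W j) < 2 * k * (r + 1) := by linarith
  have h3 : ∑ j, xs y (W j) < r + 1 := by
    by_contra h4
    push Not at h4
    have : (2 * k : ℤ) * (r + 1) ≤ 2 * k * ∑ j, xs y (W j) :=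
      mul_le_mul_of_nonneg_left h4 (by positivity)
    linarith
  refine ⟨y, hy, fun j => ?_⟩
  have h4 : ∀ i, 0 ≤ xs y (W i) - 1 := fun i => by have := hy.2 _ (hW i); linarith
  have h5 : ∑ i, (xs y (W i) - 1) ≤ 0 := by
    rw [Finset.sum_sub_distrib]
    simp only [Finset.sum_const, Finset.card_univ, Fintype.card_fin, nsmul_eq_mul, mul_one]
    omega
  have h6 : xs y (W j) - 1 ≤ ∑ i, (xs y (W i) - 1) :=
    Finset.single_le_sum (f := fun i => xs y (W i) - 1) (fun i _ => h4 i) (Finset.mem_univ j)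
  have := h4 j
  linarith

end

end Pool.Agent.LK9e
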